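import Pool.Agent.Y44.G.Low

/-! # Project G (helper223): job G-LOWREG -/

set_option autoImplicit false

open IsLocalRing MvPolynomial

namespace Pool.Agent.Y44.G

open Pool.Agent.Y223.G

section graded

variable {k K : Type} [CommRing k] [Field K] [Algebra k K]
variable {C : Subalgebra k (LP K)} {ρ : ℕ} {P : Ideal (low C ρ)} {c : ℕ} {a : Fin c → ℕ}
  {x : Fin c → K}

theorem val_eval (hρ : 0 < ρ) (h : LD C ρ P a x) (F : MvPolynomial (Fin c) (d0 C)) :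
    ((eval₂Hom (i0 C ρ hρ) (xx h) F : low C ρ) : LP K) =
      ∑ m ∈ F.support, hm (wt a m) (((coeff m F : d0 C) : K) * ∏ i, x i ^ m i) := by
  rw [coe_eval₂Hom, eval₂_eq', AddSubmonoidClass.coe_finsetSum]
  apply Finset.sum_congr rfl
  intro m _
  have e1 : ((∏ i, xx h i ^ m i : low C ρ) : LP K) = ∏ i, hm (a i) (x i) ^ m i := by
    rw [SubmonoidClass.coe_finsetProd]
    rfl
  rw [MulMemClass.coe_mul, e1]
  change hm 0 ((coeff m F : d0 C) : K) * _ = _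
  simp_rw [hm_pow]
  rw [hm_prod, hm_mul, zero_add]
  congr 1
  unfold wt
  push_cast
  exact Finset.sum_congr rfl fun i _ => by ring

theorem coef_I0 [P.IsPrime] (hρ : 0 < ρ) {u : K} (hu0 : u ≠ 0)
    (hu' : hm (-ρ) u⁻¹ ∈ low C ρ) (h : LD C ρ P a x) (F : MvPolynomial (Fin c) (d0 C)) (z : low C ρ)
    (e : eval₂Hom (i0 C ρ hρ) (xx h) F = (⟨hm (-ρ) u⁻¹, hu'⟩ : low C ρ) * z) :
    ∃ g : d0 C, i0 C ρ hρ g ∉ P ∧ ∀ m, g * coeff m F ∈ I0 C ρ := by
  classical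
  have key : ∀ m ∈ F.support, ∃ g : d0 C, i0 C ρ hρ g ∉ P ∧ g * coeff m F ∈ I0 C ρ := by
    intro m0 hm0
    set d : ℕ := wt a m0 with hd
    have e1 : (∑ m ∈ F.support, hm (wt a m) (((coeff m F : d0 C) : K) * ∏ i, x i ^ m i)).coeff (d : ℤ) =
        (hm (-ρ) u⁻¹ * (z : LP K)).coeff (d : ℤ) := by
      rw [← val_eval hρ h F, e]
      rfl
    have e2 : (∑ m ∈ F.support, hm (wt a m) (((coeff m F : d0 C) : K) * ∏ i, x i ^ m i)).coeff (d : ℤ) =
        ∑ m ∈ F.support.filter (fun m => wt a m = d), ((coeff m F : d0 C) : K) * ∏ i, x i ^ m i := by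
      rw [AddMonoidAlgebra.coeff_sum, Finsupp.finsetSum_apply, Finset.sum_filter]
      apply Finset.sum_congr rfl
      intro m _
      rw [coeff_hm]
      simp only [Nat.cast_inj]
    rw [e2, coeff_hm_mul, sub_neg_eq_add] at e1
    obtain ⟨g, hg, hW⟩ := Hn_coeff hρ h (z : LP K) z.2 ((d : ℤ) + ρ)
    obtain ⟨s, t, hst, hz⟩ := W_finset hW
    have h1 := h.qr d (F.support.filter (fun m => wt a m = d)) (fun m => coeff m F)
      (fun m hm => (Finset.mem_filter.1 hm).2)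
      ⟨(g : K), mem_low g.2 (by exact_mod_cast hρ), hg, s, fun m => u⁻¹ * t m, ?_, ?_⟩ m0
      (Finset.mem_filter.2 ⟨hm0, rfl⟩)
    · obtain ⟨g', hg', hgP', hmem⟩ := h1
      exact ⟨g', hgP', hmem⟩
    · intro m hm
      obtain ⟨h2, h3⟩ := hst m hm
      refine ⟨?_, ?_⟩
      · have : (d : ℤ) + ρ ≤ ((∑ i, a i * m i : ℕ) : ℤ) := h2
        omega
      · have h4 := C.mul_mem (low_le C ρ hu') h3
        rw [hm_mul] at h4
        have e3 : -(ρ : ℤ) + ((d : ℤ) + ρ - (wt a m : ℤ)) = (d : ℤ) - ((∑ i, a i * m i : ℕ) : ℤ) := by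
          unfold wt; ring
        rwa [e3] at h4
    · rw [e1]
      have e4 : ∑ m ∈ s, u⁻¹ * t m * ∏ i, x i ^ m i = u⁻¹ * ∑ m ∈ s, t m * ∏ i, x i ^ m i := by
        rw [Finset.mul_sum]
        exact Finset.sum_congr rfl fun m _ => by ring
      rw [e4, ← hz]
      ring
  choose! g hg hgI using key
  refine ⟨∏ m ∈ F.support, g m, ?_, ?_⟩
  · rw [map_prod]
    intro hmem
    obtain ⟨m, hm, hmP⟩ := (Ideal.IsPrime.prod_mem_iff (hp := inferInstance)).1 hmem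
    exact hg m hm hmP
  · intro m
    by_cases hm : m ∈ F.support
    · obtain ⟨q, hq⟩ := Finset.dvd_prod_of_mem g hm
      rw [hq]
      have : g m * q * coeff m F = q * (g m * coeff m F) := by ring
      rw [this]
      exact (I0 C ρ).mul_mem_left _ (hgI m hm)
    · rw [MvPolynomial.notMem_support_iff.1 hm, mul_zero]
      exact (I0 C ρ).zero_mem

theorem I0_le (hρ : 0 < ρ) {u : K} (hu0 : u ≠ 0) (hu : hm ρ u ∈ C) (hu' : hm (-ρ) u⁻¹ ∈ low C ρ) :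
    ∀ r ∈ I0 C ρ, ∃ z, i0 C ρ hρ r = (⟨hm (-ρ) u⁻¹, hu'⟩ : low C ρ) * z := by
  intro r hr
  have hle : I0 C ρ ≤ (Ideal.span {(⟨hm (-ρ) u⁻¹, hu'⟩ : low C ρ)}).comap (i0 C ρ hρ) := by
    unfold I0
    rw [Ideal.span_le]
    rintro y ⟨i, hi0, hiρ, s, t, hs, ht, e⟩
    rw [SetLike.mem_coe, Ideal.mem_comap, Ideal.mem_span_singleton]
    obtain ⟨z, hz⟩ := neg_deg hu0 hu hu' (by omega : -(i : ℤ) < ρ) (by omega) ht
    refine ⟨⟨hm i s, mem_low hs (by exact_mod_cast hiρ)⟩ * z, ?_⟩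
    have e1 : i0 C ρ hρ y = (⟨hm i s, mem_low hs (by exact_mod_cast hiρ)⟩ : low C ρ) *
        ⟨hm (-(i : ℤ)) t, mem_low ht (by omega)⟩ := by
      apply Subtype.ext
      change hm 0 (y : K) = hm i s * hm (-(i : ℤ)) t
      rw [hm_mul, add_neg_cancel, e]
    rw [e1, hz]
    ring
  have := hle hr
  rw [Ideal.mem_comap, Ideal.mem_span_singleton] at this
  exact this

theorem loc_low (hgr : Gr C) (hρ : 0 < ρ) {u : K} (hu0 : u ≠ 0) (hu : hm ρ u ∈ C)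
    (hu' : hm (-ρ) u⁻¹ ∈ low C ρ) : loc (low C ρ) (hm (-ρ) u⁻¹) hu' = C := by
  apply le_antisymm
  · rintro f ⟨n, hn⟩
    have h1 := C.mul_mem (C.pow_mem hu n) (low_le C ρ hn)
    rw [← mul_assoc, ← mul_pow, hm_mul, add_neg_cancel, mul_inv_cancel₀ hu0, hm_one, one_pow,
      one_mul] at h1
    exact h1
  · intro f hf
    set n : ℕ := ∑ d ∈ f.coeff.support, d.toNat with hn
    refine ⟨n, ?_⟩
    have h2 : hm (-ρ) u⁻¹ ^ n * f = ∑ d ∈ f.coeff.support, hm (-ρ) u⁻¹ ^ n * hm d (f.coeff d) := by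
      conv_lhs => rw [eq_sum_hm f]
      rw [Finset.mul_sum]
    rw [h2]
    apply (low C ρ).sum_mem
    intro d hd
    have h3 : d.toNat ≤ n := Finset.single_le_sum (f := fun d : ℤ => d.toNat) (fun _ _ => Nat.zero_le _) hd
    have h4 := C.mul_mem (C.pow_mem (low_le C ρ hu') n) (hgr f hf d)
    rw [hm_pow, hm_mul] at h4 ⊢
    apply mem_low h4
    have h5 : d ≤ n := le_trans (Int.self_le_toNat d) (by exact_mod_cast h3)
    have h6 : (n : ℤ) ≤ n * ρ := by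
      have : (1 : ℤ) ≤ ρ := by exact_mod_cast hρ
      nlinarith
    have h7 : (n : ℤ) * -(ρ : ℤ) = -(n * ρ) := by ring
    have : (0 : ℤ) < ρ := by exact_mod_cast hρ
    rw [h7]
    omega

end graded

theorem t_LOWREG : S_I0REG → S_LRA → S_LOWFT → S_LOWREG := by
  intro hI hLRA hFT k K _ _ _ _ C hft hreg hgr ρ hρ u hu0 hu hu'
  have hft' : Algebra.FiniteType k (low C ρ) := hFT k K C hft hgr ρ hρ u hu0 hu hu'
  have hnoeth : IsNoetherianRing (low C ρ) := Algebra.FiniteType.isNoetherianRing k _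
  have hw : hm (-ρ) u⁻¹ ∈ low C ρ := mem_low hu' (by
    have : (0 : ℤ) < ρ := by exact_mod_cast hρ
    omega)
  rw [isRegularRing_iff]
  intro P hP
  by_cases hwP : (⟨hm (-ρ) u⁻¹, hw⟩ : low C ρ) ∈ P
  · obtain ⟨c, a, x, h⟩ := hLRA k K C hft hreg hgr ρ hρ u hu0 hu hw P hP hwP
    have hreg0 : IsRegularRing (d0 C ⧸ I0 C ρ) := hI k K C hft hreg hgr ρ hρ u hu0 hu hu'
    have hw0 : (⟨hm (-ρ) u⁻¹, hw⟩ : low C ρ) ≠ 0 := by
      intro e
      have e' : hm (-ρ) u⁻¹ = (0 : LP K) := congrArg Subtype.val e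
      exact hm_ne_zero (inv_ne_zero hu0) e'
    exact main_abs hw0 hwP (I0 C ρ) (I0_le hρ hu0 hu hw) (T_all hρ hu0 hu hw h)
      (coef_I0 hρ hu0 hw h)
  · let _ := locAlg (low C ρ) hw
    have hunit : IsUnit (hm (-(ρ : ℤ)) u⁻¹) := isUnit_hm (inv_ne_zero hu0)
    have h1 : IsLocalization.Away (⟨hm (-ρ) u⁻¹, hw⟩ : low C ρ) (loc (low C ρ) (hm (-ρ) u⁻¹) hw) :=
      isLocalization_loc (low C ρ) hw hunit
    have h2 : IsRegularRing (loc (low C ρ) (hm (-ρ) u⁻¹) hw) := by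
      rw [loc_low hgr hρ hu0 hu hw]
      exact hreg
    exact reg_at_of_away (B := loc (low C ρ) (hm (-ρ) u⁻¹) hw) (⟨hm (-ρ) u⁻¹, hw⟩ : low C ρ) P hwP

end Pool.Agent.Y44.G
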