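import Pool.Agent.Y44.G.Loc

/-! # Project G (helper223): job G-LOWREG, the abstract form -/

set_option autoImplicit false

open IsLocalRing MvPolynomial

namespace Pool.Agent.Y44.G

section abs

variable {A L : Type} [CommRing A] [CommRing L] (i : A →+* L) (P : Ideal L) {c : ℕ} (X : Fin c → L)
  (w : L)

/-- `l` is a polynomial in the `X j` modulo `w`, up to an element outside `P` -/
def T (l : L) : Prop := ∃ g : A, i g ∉ P ∧ ∃ (F : MvPolynomial (Fin c) A) (z : L),
  i g * l = eval₂Hom i X F + w * z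

variable {i P X w}

theorem T_add [P.IsPrime] {l l' : L} (h : T i P X w l) (h' : T i P X w l') : T i P X w (l + l') := by
  obtain ⟨g, hg, F, z, e⟩ := h
  obtain ⟨g', hg', F', z', e'⟩ := h'
  refine ⟨g * g', ?_, C g' * F + C g * F', i g' * z + i g * z', ?_⟩
  · rw [map_mul]
    exact fun h => (Ideal.IsPrime.mem_or_mem inferInstance h).elim hg hg'
  · rw [map_mul, map_add, map_mul, map_mul, eval₂Hom_C, eval₂Hom_C]
    linear_combination (i g') * e + (i g) * e'

theorem T_mul [P.IsPrime] {l l' : L} (h : T i P X w l) (h' : T i P X w l') : T i P X w (l * l') := by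
  obtain ⟨g, hg, F, z, e⟩ := h
  obtain ⟨g', hg', F', z', e'⟩ := h'
  refine ⟨g * g', ?_, F * F', eval₂Hom i X F * z' + z * eval₂Hom i X F' + w * z * z', ?_⟩
  · rw [map_mul]
    exact fun h => (Ideal.IsPrime.mem_or_mem inferInstance h).elim hg hg'
  · rw [map_mul, map_mul]
    linear_combination (i g' * l') * e + (eval₂Hom i X F + w * z) * e'

theorem T_absorb [P.IsPrime] {g : A} (hg : i g ∉ P) {l : L} (h : T i P X w (i g * l)) : T i P X w l := by
  obtain ⟨g', hg', F, z, e⟩ := h
  refine ⟨g' * g, ?_, F, z, ?_⟩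
  · rw [map_mul]
    exact fun h => (Ideal.IsPrime.mem_or_mem inferInstance h).elim hg' hg
  · rw [map_mul, ← e, mul_assoc]

theorem T_w [P.IsPrime] (z : L) : T i P X w (w * z) :=
  ⟨1, by rw [map_one]; exact fun h => (Ideal.IsPrime.ne_top inferInstance) ((Ideal.eq_top_iff_one _).2 h),
    0, z, by rw [map_one, map_zero]; ring⟩

theorem T_i [P.IsPrime] (r : A) : T i P X w (i r) :=
  ⟨1, by rw [map_one]; exact fun h => (Ideal.IsPrime.ne_top inferInstance) ((Ideal.eq_top_iff_one _).2 h),
    C r, 0, by rw [map_one, eval₂Hom_C]; ring⟩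

theorem T_X [P.IsPrime] (j : Fin c) : T i P X w (X j) :=
  ⟨1, by rw [map_one]; exact fun h => (Ideal.IsPrime.ne_top inferInstance) ((Ideal.eq_top_iff_one _).2 h),
    MvPolynomial.X j, 0, by rw [map_one, eval₂Hom_X']; ring⟩

theorem T_sum [P.IsPrime] {ι : Type} (s : Finset ι) (f : ι → L) (h : ∀ j ∈ s, T i P X w (f j)) :
    T i P X w (∑ j ∈ s, f j) := by
  classical
  induction s using Finset.induction_on with
  | empty =>
    rw [Finset.sum_empty]
    have := T_w (i := i) (P := P) (X := X) (w := w) 0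
    rwa [mul_zero] at this
  | insert a s ha ih =>
    rw [Finset.sum_insert ha]
    exact T_add (h a (Finset.mem_insert_self _ _)) (ih fun j hj => h j (Finset.mem_insert_of_mem hj))

theorem main_abs [IsNoetherianRing L] [IsDomain L] [P.IsPrime] (hw0 : w ≠ 0) (hwP : w ∈ P)
    (I : Ideal A) [IsRegularRing (A ⧸ I)] (hI : ∀ r ∈ I, ∃ z, i r = w * z)
    (hT : ∀ l, T i P X w l)
    (hK : ∀ (F : MvPolynomial (Fin c) A) (z : L), eval₂Hom i X F = w * z →
      ∃ g : A, i g ∉ P ∧ ∀ m, g * coeff m F ∈ I) :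
    IsRegularLocalRing (Localization.AtPrime P) := by
  classical
  set Lp := Localization.AtPrime P with hLp
  have hle : P.primeCompl ≤ nonZeroDivisors L := by
    intro x hx
    exact mem_nonZeroDivisors_of_ne_zero (fun h => hx (by rw [h]; exact P.zero_mem))
  have hdom : IsDomain Lp := IsLocalization.isDomain_localization hle
  have hinj : Function.Injective (algebraMap L Lp) := IsLocalization.injective Lp hle
  have hnoeth : IsNoetherianRing Lp := inferInstance
  set y : Lp := algebraMap L Lp w with hy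
  have hy0 : y ≠ 0 := by
    rw [hy]
    exact fun h => hw0 (hinj (by rw [h, map_zero]))
  have hym : y ∈ maximalIdeal Lp := by
    exact (IsLocalization.AtPrime.to_map_mem_maximal_iff Lp P w).2 hwP
  set B := Lp ⧸ Ideal.span {y} with hB
  have hne : Ideal.span {y} ≠ (⊤ : Ideal Lp) := by
    intro h
    rw [Ideal.span_singleton_eq_top] at h
    exact (mem_maximalIdeal y).mp hym h
  have hnt : Nontrivial B := Ideal.Quotient.nontrivial_iff.mpr hne
  have hlr : IsLocalRing B :=
    IsLocalRing.of_surjective' (Ideal.Quotient.mk (Ideal.span {y})) Ideal.Quotient.mk_surjective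
  set θ : L →+* B := (Ideal.Quotient.mk (Ideal.span {y})).comp (algebraMap L Lp) with hθ
  have hθw : θ w = 0 := by
    rw [hθ, RingHom.comp_apply, Ideal.Quotient.eq_zero_iff_mem]
    exact Ideal.mem_span_singleton_self _
  have hθu : ∀ l : L, l ∉ P → IsUnit (θ l) := by
    intro l hl
    have h1 : IsUnit (algebraMap L Lp l) := IsLocalization.map_units Lp (⟨l, hl⟩ : P.primeCompl)
    exact h1.map (Ideal.Quotient.mk (Ideal.span {y}))
  have hθs : ∀ b : B, ∃ l s : L, s ∉ P ∧ b * θ s = θ l := by
    intro b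
    obtain ⟨b, rfl⟩ := Ideal.Quotient.mk_surjective b
    obtain ⟨⟨l, s⟩, h⟩ := IsLocalization.surj P.primeCompl b
    refine ⟨l, s, s.2, ?_⟩
    rw [hθ, RingHom.comp_apply, RingHom.comp_apply, ← map_mul, h]
  have hθ0 : ∀ l : L, θ l = 0 → ∃ s z : L, s ∉ P ∧ s * l = w * z := by
    intro l hl
    rw [hθ, RingHom.comp_apply, Ideal.Quotient.eq_zero_iff_mem, Ideal.mem_span_singleton] at hl
    obtain ⟨b, hb⟩ := hl
    obtain ⟨⟨z, s⟩, h⟩ := IsLocalization.surj P.primeCompl b
    refine ⟨s, z, s.2, hinj ?_⟩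
    simp only at h
    rw [map_mul, map_mul, hb, ← h]
    ring
  -- the map from the polynomial ring
  set φ : A ⧸ I →+* B := Ideal.Quotient.lift I (θ.comp i) (by
    intro r hr
    obtain ⟨z, hz⟩ := hI r hr
    rw [RingHom.comp_apply, hz, map_mul, hθw, zero_mul]) with hφ
  set Ψ : MvPolynomial (Fin c) (A ⧸ I) →+* B := eval₂Hom φ (fun j => θ (X j)) with hΨ
  have hcomp : Ψ.comp (MvPolynomial.map (Ideal.Quotient.mk I)) = θ.comp (eval₂Hom i X) := by
    apply MvPolynomial.ringHom_ext
    · intro r
      rw [RingHom.comp_apply, RingHom.comp_apply, MvPolynomial.map_C, hΨ, eval₂Hom_C, eval₂Hom_C, hφ,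
        Ideal.Quotient.lift_mk, RingHom.comp_apply]
    · intro j
      rw [RingHom.comp_apply, RingHom.comp_apply, MvPolynomial.map_X, hΨ, eval₂Hom_X', eval₂Hom_X']
  have hΨm : ∀ F : MvPolynomial (Fin c) A, Ψ (MvPolynomial.map (Ideal.Quotient.mk I) F) =
      θ (eval₂Hom i X F) := fun F => RingHom.congr_fun hcomp F
  have hsurj : Function.Surjective (MvPolynomial.map (σ := Fin c) (Ideal.Quotient.mk I)) :=
    MvPolynomial.map_surjective _ Ideal.Quotient.mk_surjective
  have hregB : IsRegularLocalRing B := by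
    apply reg_of_hom Ψ
    · intro b
      obtain ⟨l, s, hs, hb⟩ := hθs b
      obtain ⟨g, hg, F, z, e⟩ := hT l
      obtain ⟨g', hg', G, z', e'⟩ := hT s
      refine ⟨MvPolynomial.map (Ideal.Quotient.mk I) (C g' * F),
        MvPolynomial.map (Ideal.Quotient.mk I) (C g * G), ?_, ?_⟩
      · rw [hΨm, map_mul, eval₂Hom_C, map_mul]
        have h1 : θ (eval₂Hom i X G) = θ (i g' * s) := by
          rw [e', map_add, map_mul θ w, hθw]; ring
        rw [h1, ← map_mul]
        apply hθu
        intro h
        rcases Ideal.IsPrime.mem_or_mem inferInstance h with h | h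
        · exact hg h
        · exact (Ideal.IsPrime.mem_or_mem inferInstance h).elim hg' hs
      · simp only [hΨm, map_mul, eval₂Hom_C]
        have h1 : θ (eval₂Hom i X G) = θ (i g') * θ s := by
          rw [← map_mul, e', map_add, map_mul θ w, hθw]; ring
        have h2 : θ (eval₂Hom i X F) = θ (i g) * θ l := by
          rw [← map_mul, e, map_add, map_mul θ w, hθw]; ring
        rw [h1, h2, ← hb]
        ring
    · intro r hr
      obtain ⟨F, rfl⟩ := hsurj r
      rw [hΨm] at hr
      obtain ⟨s, z, hs, hsz⟩ := hθ0 _ hr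
      obtain ⟨g, hg, G, z', e⟩ := hT s
      obtain ⟨g', hg', hcoef⟩ := hK (G * F) (i g * z - z' * eval₂Hom i X F) (by
        rw [map_mul]
        linear_combination (-(eval₂Hom i X F)) * e + (i g) * hsz)
      refine ⟨MvPolynomial.map (Ideal.Quotient.mk I) (C g' * G), ?_, ?_⟩
      · rw [hΨm, map_mul, eval₂Hom_C, map_mul]
        have h1 : θ (eval₂Hom i X G) = θ (i g * s) := by
          rw [e, map_add, map_mul θ w, hθw]; ring
        rw [h1, ← map_mul]
        apply hθu
        intro h
        rcases Ideal.IsPrime.mem_or_mem inferInstance h with h | h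
        · exact hg' h
        · exact (Ideal.IsPrime.mem_or_mem inferInstance h).elim hg hs
      · rw [← map_mul, mul_assoc]
        ext m
        rw [MvPolynomial.coeff_map, coeff_C_mul, coeff_zero, Ideal.Quotient.eq_zero_iff_mem]
        exact hcoef m
  refine reg_of_quot (Ideal.Quotient.mk (Ideal.span {y})) Ideal.Quotient.mk_surjective y
    (mem_nonZeroDivisors_of_ne_zero hy0) hym Ideal.mk_ker

end abs

end Pool.Agent.Y44.G
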