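import Mathlib

/-! # Project G (helper223): job G-LOWREG, generic commutative algebra -/

set_option autoImplicit false

open IsLocalRing

namespace Pool.Agent.Y44.G

/-- a noetherian local ring with a nonzerodivisor `y` in the maximal ideal and a regular quotient
by `y` is regular -/
theorem reg_of_quot {R S : Type} [CommRing R] [CommRing S] [IsLocalRing R] [IsNoetherianRing R]
    [IsRegularLocalRing S] (f : R →+* S) (hf : Function.Surjective f) (y : R)
    (hy : y ∈ nonZeroDivisors R) (hym : y ∈ maximalIdeal R)
    (hker : RingHom.ker f = Ideal.span {y}) : IsRegularLocalRing R := by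
  classical
  have hdim : ringKrullDim S + 1 = ringKrullDim R := by
    rw [← ringKrullDim_quotient_span_singleton_succ_eq_ringKrullDim_of_mem_nonZeroDivisors hy hym]
    congr 1
    refine (ringKrullDim_eq_of_ringEquiv ?_).symm
    exact (Ideal.quotEquivOfEq hker.symm).trans (RingHom.quotientKerEquivOfSurjective hf)
  apply IsRegularLocalRing.of_spanFinrank_maximalIdeal_le
  obtain ⟨t, ht, hts⟩ := Submodule.FG.exists_span_finset_card_eq_spanFinrank
    (p := maximalIdeal S) (maximalIdeal S).fg_of_isNoetherianRing
  choose g hg using hf
  have hloc : ∀ z ∈ maximalIdeal R, f z ∈ maximalIdeal S := by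
    intro z hz
    by_contra h
    have hu : IsUnit (f z) := by
      by_contra h2
      exact h ((mem_maximalIdeal _).2 h2)
    obtain ⟨v, hv⟩ := hu.exists_right_inv
    have h1 : f (z * g v - 1) = 0 := by rw [map_sub, map_mul, hg, hv, map_one, sub_self]
    have h2 : z * g v - 1 ∈ maximalIdeal R := by
      have : z * g v - 1 ∈ RingHom.ker f := h1
      rw [hker] at this
      exact (Ideal.span_singleton_le_iff_mem _).2 hym this
    have h3 : (1 : R) ∈ maximalIdeal R := by
      have := (maximalIdeal R).sub_mem ((maximalIdeal R).mul_mem_right (g v) hz) h2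
      simpa using this
    exact (Ideal.ne_top_iff_one _).1 (maximalIdeal.isMaximal R).ne_top h3
  have hspan : Submodule.span R (insert y ((t.image g : Finset R) : Set R)) = maximalIdeal R := by
    apply le_antisymm
    · rw [Submodule.span_le]
      intro z hz
      rw [Set.mem_insert_iff] at hz
      rcases hz with rfl | hz
      · exact hym
      · rw [Finset.coe_image] at hz
        obtain ⟨s, hs, rfl⟩ := hz
        by_contra h
        have hu : IsUnit (g s) := by
          by_contra h2
          exact h ((mem_maximalIdeal _).2 h2)
        have h3 : IsUnit s := by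
          have := hu.map f
          rwa [hg] at this
        have h4 : s ∈ maximalIdeal S := by
          rw [← hts]; exact Submodule.subset_span hs
        exact (mem_maximalIdeal _).1 h4 h3
    · intro z hz
      have h1 := hloc z hz
      rw [← hts, Submodule.mem_span_finset] at h1
      obtain ⟨a, -, ha⟩ := h1
      have h2 : f (z - ∑ s ∈ t, g (a s) * g s) = 0 := by
        rw [map_sub, map_sum, ← ha, sub_eq_zero]
        apply Finset.sum_congr rfl
        intro s _
        rw [map_mul, hg, hg, smul_eq_mul]
      have h3 : z - ∑ s ∈ t, g (a s) * g s ∈ Ideal.span {y} := by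
        rw [← hker]; exact h2
      rw [Ideal.mem_span_singleton] at h3
      obtain ⟨b, hb⟩ := h3
      have h4 : z = ∑ s ∈ t, g (a s) * g s + y * b := by rw [← hb]; ring
      rw [h4]
      apply Submodule.add_mem
      · apply Submodule.sum_mem
        intro s hs
        rw [← smul_eq_mul]
        apply Submodule.smul_mem
        apply Submodule.subset_span
        exact Set.mem_insert_of_mem _ (by rw [Finset.coe_image]; exact Set.mem_image_of_mem _ hs)
      · rw [mul_comm, ← smul_eq_mul]
        apply Submodule.smul_mem
        exact Submodule.subset_span (Set.mem_insert _ _)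
  have hfin : (insert y ((t.image g : Finset R) : Set R)).Finite := (Finset.finite_toSet _).insert _
  have h5 := Submodule.spanFinrank_span_le_ncard_of_finite (R := R) hfin
  rw [hspan] at h5
  have h6 : (insert y ((t.image g : Finset R) : Set R)).ncard ≤ t.card + 1 := by
    refine le_trans (Set.ncard_insert_le _ _) ?_
    rw [Set.ncard_coe_finset]
    exact Nat.add_le_add_right Finset.card_image_le _
  rw [← hdim, ← IsRegularLocalRing.spanFinrank_maximalIdeal (R := S), ← ht]
  exact_mod_cast le_trans h5 h6

/-- localizations at primes not containing `w` -/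
theorem reg_at_of_away {A B : Type} [CommRing A] [CommRing B] [Algebra A B] (w : A)
    [IsLocalization.Away w B] [IsRegularRing B] (P : Ideal A) [P.IsPrime] (hw : w ∉ P) :
    IsRegularLocalRing (Localization.AtPrime P) := by
  have hdisj : Disjoint (Submonoid.powers w : Set A) (P : Set A) := by
    rw [Set.disjoint_left]
    rintro _ ⟨n, rfl⟩ h
    exact hw (Ideal.IsPrime.mem_of_pow_mem inferInstance n h)
  have hP' : (P.map (algebraMap A B)).IsPrime :=
    IsLocalization.isPrime_of_isPrime_disjoint (Submonoid.powers w) B P inferInstance hdisj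
  have hcomap : (P.map (algebraMap A B)).comap (algebraMap A B) = P :=
    IsLocalization.comap_map_of_isPrime_disjoint (Submonoid.powers w) B inferInstance hdisj
  have h1 : IsRegularLocalRing (Localization.AtPrime (P.map (algebraMap A B))) := inferInstance
  have h2 : IsLocalization.AtPrime (Localization.AtPrime (P.map (algebraMap A B)))
      ((P.map (algebraMap A B)).comap (algebraMap A B)) :=
    IsLocalization.isLocalization_isLocalization_atPrime_isLocalization (Submonoid.powers w)
      (Localization.AtPrime (P.map (algebraMap A B))) (P.map (algebraMap A B))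
  have h3 : IsLocalization P.primeCompl (Localization.AtPrime (P.map (algebraMap A B))) := by
    have : ((P.map (algebraMap A B)).comap (algebraMap A B)).primeCompl = P.primeCompl := by
      ext x
      simp only [Ideal.mem_primeCompl_iff, hcomap]
    rw [← this]
    exact h2
  exact IsRegularLocalRing.of_ringEquiv
    (IsLocalization.algEquiv P.primeCompl (Localization.AtPrime (P.map (algebraMap A B)))
      (Localization.AtPrime P)).toRingEquiv

/-- A local ring `B` which is a localization of a regular ring `R` at a prime, in terms of a ring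
homomorphism. -/
theorem reg_of_hom {R B : Type} [CommRing R] [CommRing B] [IsLocalRing B] [IsRegularRing R]
    (Ψ : R →+* B) (hs : ∀ b : B, ∃ r s : R, IsUnit (Ψ s) ∧ b * Ψ s = Ψ r)
    (hi : ∀ r : R, Ψ r = 0 → ∃ s : R, IsUnit (Ψ s) ∧ s * r = 0) : IsRegularLocalRing B := by
  let _ : Algebra R B := Ψ.toAlgebra
  have hmap : ∀ r : R, algebraMap R B r = Ψ r := fun r => rfl
  set q : Ideal R := (maximalIdeal B).comap Ψ with hq
  have hqp : q.IsPrime := Ideal.comap_isPrime _ _
  have hunit : ∀ s : R, IsUnit (Ψ s) ↔ s ∉ q := by
    intro s
    rw [hq, Ideal.mem_comap, mem_maximalIdeal, mem_nonunits_iff, not_not]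
  have hloc : IsLocalization q.primeCompl B := by
    refine ⟨?_, ?_, ?_⟩
    · rintro ⟨s, hs'⟩
      exact (hunit s).2 hs'
    · intro b
      obtain ⟨r, s, hu, h⟩ := hs b
      exact ⟨(r, ⟨s, (hunit s).1 hu⟩), h⟩
    · intro x y hxy
      rw [hmap, hmap] at hxy
      obtain ⟨s, hu, h⟩ := hi (x - y) (by rw [map_sub, hxy, sub_self])
      refine ⟨⟨s, (hunit s).1 hu⟩, ?_⟩
      rw [mul_sub, sub_eq_zero] at h
      exact h
  exact IsRegularLocalRing.of_ringEquiv
    (IsLocalization.algEquiv q.primeCompl (Localization.AtPrime q) B).toRingEquiv

end Pool.Agent.Y44.G
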