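import Pool.Agent.Y223.G.Stm
import Pool.Agent.Y44.G.Abs

/-! # Project G (helper223): job G-LOWREG, the graded part -/

set_option autoImplicit false

open IsLocalRing MvPolynomial

namespace Pool.Agent.Y44.G

open Pool.Agent.Y223.G

section graded

variable {k K : Type} [CommRing k] [Field K] [Algebra k K]

/-- the elements of degree zero inside the low part -/
noncomputable def i0 (C : Subalgebra k (LP K)) (ρ : ℕ) (hρ : 0 < ρ) : d0 C →+* low C ρ where
  toFun r := ⟨hm 0 (r : K), mem_low r.2 (by exact_mod_cast hρ)⟩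
  map_one' := Subtype.ext hm_one
  map_mul' x y := Subtype.ext (by
    change hm 0 ((x : K) * y) = hm 0 (x : K) * hm 0 (y : K)
    rw [hm_mul, add_zero])
  map_zero' := Subtype.ext (hm_zero 0)
  map_add' x y := Subtype.ext (hm_add 0 _ _)

variable {C : Subalgebra k (LP K)} {ρ : ℕ} {P : Ideal (low C ρ)} {c : ℕ} {a : Fin c → ℕ}
  {x : Fin c → K}

/-- the elements `x j` inside the low part -/
noncomputable def xx (h : LD C ρ P a x) (j : Fin c) : low C ρ :=
  ⟨hm (a j) (x j), mem_low (h.deg j).2.2 (by exact_mod_cast (h.deg j).2.1)⟩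

theorem neg_deg {u : K} (hu0 : u ≠ 0) (hu : hm ρ u ∈ C)
    (hu' : hm (-ρ) u⁻¹ ∈ low C ρ) {d : ℤ} (hd : d < ρ) (hd0 : d < 0) {y : K} (hy : hm d y ∈ C) :
    ∃ z : low C ρ, (⟨hm d y, mem_low hy hd⟩ : low C ρ) = (⟨hm (-ρ) u⁻¹, hu'⟩ : low C ρ) * z := by
  have h1 : hm (ρ + d) (u * y) ∈ C := by
    have := C.mul_mem hu hy
    rwa [hm_mul] at this
  refine ⟨⟨hm (ρ + d) (u * y), mem_low h1 (by omega)⟩, Subtype.ext ?_⟩
  change hm d y = hm (-ρ) u⁻¹ * hm (ρ + d) (u * y)
  rw [hm_mul, neg_add_cancel_left, inv_mul_cancel_left₀ hu0]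

theorem T_hom (hρ : 0 < ρ) {u : K} (hu0 : u ≠ 0) (hu : hm ρ u ∈ C)
    (hu' : hm (-ρ) u⁻¹ ∈ low C ρ) [P.IsPrime] (h : LD C ρ P a x) (n : ℕ) :
    ∀ (d : ℤ) (hd : d < ρ) (y : K) (hy : hm d y ∈ C), d ≤ n →
      T (i0 C ρ hρ) P (xx h) ⟨hm (-ρ) u⁻¹, hu'⟩ ⟨hm d y, mem_low hy hd⟩ := by
  induction n with
  | zero =>
    intro d hd y hy hdn
    rcases lt_or_eq_of_le hdn with h0 | h0
    · obtain ⟨z, hz⟩ := neg_deg hu0 hu hu' hd (by simpa using h0) hy
      rw [hz]
      exact T_w z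
    · have h0' : d = 0 := by simpa using h0
      subst h0'
      exact T_i (⟨y, hy⟩ : d0 C)
  | succ n ih =>
    intro d hd y hy hdn
    by_cases h0 : d ≤ n
    · exact ih d hd y hy h0
    · have hd' : d = ((n + 1 : ℕ) : ℤ) := by push_cast; push_cast at hdn; omega
      subst hd'
      obtain ⟨g, hg, hgP, s, hs, e⟩ := h.gen (n + 1) y (by omega) (by exact_mod_cast hd) hy
      have hgd : g ∈ d0 C := low_le C ρ hg
      have hgP' : i0 C ρ hρ ⟨g, hgd⟩ ∉ P := hgP
      apply T_absorb hgP'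
      have hlow : ∀ j, ((n + 1 : ℕ) : ℤ) - a j < ρ := fun j => by omega
      have e1 : i0 C ρ hρ ⟨g, hgd⟩ * ⟨hm ((n + 1 : ℕ) : ℤ) y, mem_low hy hd⟩ =
          ∑ j, (⟨hm (((n + 1 : ℕ) : ℤ) - a j) (s j), mem_low (hs j) (hlow j)⟩ : low C ρ) * xx h j := by
        apply Subtype.ext
        have e2 : ((∑ j, (⟨hm (((n + 1 : ℕ) : ℤ) - a j) (s j), mem_low (hs j) (hlow j)⟩ : low C ρ) *
            xx h j : low C ρ) : LP K) = ∑ j, hm (((n + 1 : ℕ) : ℤ) - a j) (s j) * hm (a j) (x j) := by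
          rw [AddSubmonoidClass.coe_finsetSum]
          rfl
        rw [e2]
        change hm 0 g * hm ((n + 1 : ℕ) : ℤ) y = _
        rw [hm_mul, zero_add, e]
        have e3 : ∀ s' : Finset (Fin c), hm ((n + 1 : ℕ) : ℤ) (∑ j ∈ s', s j * x j) =
            ∑ j ∈ s', hm (((n + 1 : ℕ) : ℤ) - a j) (s j) * hm (a j) (x j) := by
          intro s'
          induction s' using Finset.induction_on with
          | empty => rw [Finset.sum_empty, Finset.sum_empty, hm_zero]
          | insert j t hj iht =>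
            rw [Finset.sum_insert hj, Finset.sum_insert hj, hm_add, iht, hm_mul, sub_add_cancel]
        exact e3 _
      rw [e1]
      apply T_sum
      intro j _
      apply T_mul _ (T_X j)
      have := (h.deg j).1
      exact ih _ (hlow j) (s j) (hs j) (by push_cast; omega)

theorem low_ind {p : LP K → Prop} (h1 : ∀ (d : ℤ) (y : K), d < ρ → hm d y ∈ C → p (hm d y))
    (h2 : ∀ r : k, p (hm 0 (algebraMap k K r)))
    (h3 : ∀ f g, f ∈ low C ρ → g ∈ low C ρ → p f → p g → p (f + g))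
    (h4 : ∀ f g, f ∈ low C ρ → g ∈ low C ρ → p f → p g → p (f * g)) : ∀ l ∈ low C ρ, p l := by
  intro l hl
  refine Algebra.adjoin_induction (R := k)
    (s := {f | f ∈ C ∧ ∃ (d : ℤ) (a : K), d < ρ ∧ f = hm d a})
    (p := fun l _ => p l) ?_ ?_ ?_ ?_ hl
  · rintro f ⟨hf, d, y, hd, rfl⟩
    exact h1 d y hd hf
  · exact h2
  · intro f g hf hg
    exact h3 f g hf hg
  · intro f g hf hg
    exact h4 f g hf hg

theorem T_all (hρ : 0 < ρ) {u : K} (hu0 : u ≠ 0) (hu : hm ρ u ∈ C)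
    (hu' : hm (-ρ) u⁻¹ ∈ low C ρ) [P.IsPrime] (h : LD C ρ P a x) (l : low C ρ) :
    T (i0 C ρ hρ) P (xx h) ⟨hm (-ρ) u⁻¹, hu'⟩ l := by
  obtain ⟨l, hl⟩ := l
  refine low_ind (p := fun l => ∀ hl : l ∈ low C ρ, T (i0 C ρ hρ) P (xx h) ⟨hm (-ρ) u⁻¹, hu'⟩ ⟨l, hl⟩)
    ?_ ?_ ?_ ?_ l hl hl
  · intro d y hd hy _
    exact T_hom hρ hu0 hu hu' h d.toNat d hd y hy (Int.self_le_toNat d)
  · intro r hr
    have e : (⟨hm 0 (algebraMap k K r), hr⟩ : low C ρ) = i0 C ρ hρ (algebraMap k (d0 C) r) :=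
      Subtype.ext rfl
    rw [e]
    exact T_i _
  · intro f g hf hg h1 h2 hfg
    have e : (⟨f + g, hfg⟩ : low C ρ) = ⟨f, hf⟩ + ⟨g, hg⟩ := Subtype.ext rfl
    rw [e]
    exact T_add (h1 hf) (h2 hg)
  · intro f g hf hg h1 h2 hfg
    have e : (⟨f * g, hfg⟩ : low C ρ) = ⟨f, hf⟩ * ⟨g, hg⟩ := Subtype.ext rfl
    rw [e]
    exact T_mul (h1 hf) (h2 hg)

/-- the weight of a monomial -/
def wt (a : Fin c → ℕ) (m : Fin c →₀ ℕ) : ℕ := ∑ i, a i * m i

theorem wt_add (a : Fin c → ℕ) (m m' : Fin c →₀ ℕ) : wt a (m + m') = wt a m + wt a m' := by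
  unfold wt
  rw [← Finset.sum_add_distrib]
  exact Finset.sum_congr rfl fun i _ => by rw [Finsupp.add_apply, mul_add]

theorem wt_zero (a : Fin c → ℕ) : wt a 0 = 0 := by simp [wt]

theorem wt_single (a : Fin c → ℕ) (j : Fin c) : wt a (Finsupp.single j 1) = a j := by
  classical
  unfold wt
  rw [Finset.sum_eq_single j]
  · simp
  · intro b _ hb
    rw [Finsupp.single_eq_of_ne hb, mul_zero]
  · intro h; exact absurd (Finset.mem_univ _) h

theorem prod_single (x : Fin c → K) (j : Fin c) : ∏ i, x i ^ (Finsupp.single j 1 : Fin c →₀ ℕ) i = x j := by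
  classical
  rw [Finset.prod_eq_single j]
  · simp
  · intro b _ hb
    rw [Finsupp.single_eq_of_ne hb, pow_zero]
  · intro h; exact absurd (Finset.mem_univ _) h

/-- combinations of monomials of weight at least `n` -/
noncomputable def W (C : Subalgebra k (LP K)) (a : Fin c → ℕ) (x : Fin c → K) (n : ℤ) : Submodule (d0 C) K :=
  Submodule.span (d0 C) {z | ∃ (m : Fin c →₀ ℕ) (t : K), n ≤ (wt a m : ℤ) ∧
    hm (n - (wt a m : ℤ)) t ∈ C ∧ z = t * ∏ i, x i ^ m i}

theorem W_mul {n n' : ℤ} {z z' : K} (hz : z ∈ W C a x n) (hz' : z' ∈ W C a x n') :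
    z * z' ∈ W C a x (n + n') := by
  have h1 : z * z' ∈ W C a x n * W C a x n' := Submodule.mul_mem_mul hz hz'
  unfold W at h1
  rw [Submodule.span_mul_span] at h1
  refine Submodule.span_mono ?_ h1
  rintro _ ⟨_, ⟨m, t, h2, h3, rfl⟩, _, ⟨m', t', h2', h3', rfl⟩, rfl⟩
  refine ⟨m + m', t * t', ?_, ?_, ?_⟩
  · rw [wt_add]; push_cast; omega
  · have := C.mul_mem h3 h3'
    rw [hm_mul] at this
    rw [wt_add]
    push_cast
    have e : n + n' - ((wt a m : ℤ) + wt a m') = n - wt a m + (n' - wt a m') := by ring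
    rwa [e]
  · simp only [Finsupp.add_apply, pow_add, Finset.prod_mul_distrib]
    ring

theorem W_finset {n : ℤ} {z : K} (hz : z ∈ W C a x n) :
    ∃ (s : Finset (Fin c →₀ ℕ)) (t : (Fin c →₀ ℕ) → K),
      (∀ m ∈ s, n ≤ (wt a m : ℤ) ∧ hm (n - (wt a m : ℤ)) (t m) ∈ C) ∧
        z = ∑ m ∈ s, t m * ∏ i, x i ^ m i := by
  classical
  unfold W at hz
  induction hz using Submodule.span_induction with
  | mem z hz =>
    obtain ⟨m, t, h1, h2, rfl⟩ := hz
    refine ⟨{m}, fun _ => t, ?_, by rw [Finset.sum_singleton]⟩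
    intro m' hm'
    rw [Finset.mem_singleton] at hm'
    subst hm'
    exact ⟨h1, h2⟩
  | zero => exact ⟨∅, fun _ => 0, by simp, by simp⟩
  | add z z' _ _ ih ih' =>
    obtain ⟨s, t, h1, h2⟩ := ih
    obtain ⟨s', t', h1', h2'⟩ := ih'
    refine ⟨s ∪ s', fun m => (if m ∈ s then t m else 0) + (if m ∈ s' then t' m else 0), ?_, ?_⟩
    · intro m hmem
      rw [Finset.mem_union] at hmem
      refine ⟨?_, ?_⟩
      · rcases hmem with hmem | hmem
        · exact (h1 m hmem).1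
        · exact (h1' m hmem).1
      · rw [hm_add]
        apply C.add_mem
        · split
          · rename_i hh; exact (h1 m hh).2
          · rw [hm_zero]; exact C.zero_mem
        · split
          · rename_i hh; exact (h1' m hh).2
          · rw [hm_zero]; exact C.zero_mem
    · simp only [add_mul, ite_mul, zero_mul]
      rw [Finset.sum_add_distrib, h2, h2']
      congr 1
      · rw [← Finset.sum_filter]
        apply Finset.sum_congr _ fun _ _ => rfl
        ext m; simp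
      · rw [← Finset.sum_filter]
        apply Finset.sum_congr _ fun _ _ => rfl
        ext m; simp
  | smul r z _ ih =>
    obtain ⟨s, t, h1, h2⟩ := ih
    refine ⟨s, fun m => r * t m, ?_, ?_⟩
    · intro m hmem
      refine ⟨(h1 m hmem).1, ?_⟩
      have h3 : hm 0 (r : K) ∈ C := r.2
      have := C.mul_mem h3 (h1 m hmem).2
      rwa [hm_mul, zero_add] at this
    · rw [h2, Subalgebra.smul_def, smul_eq_mul, Finset.mul_sum]
      exact Finset.sum_congr rfl fun m _ => by ring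

/-- the elements of degree `n` which are combinations of monomials of weight at least `n`, near `P` -/
def Hn (hρ : 0 < ρ) (P : Ideal (low C ρ)) (a : Fin c → ℕ) (x : Fin c → K) (n : ℤ) (z : K) : Prop :=
  ∃ g : d0 C, i0 C ρ hρ g ∉ P ∧ (g : K) * z ∈ W C a x n

theorem one_notMem [P.IsPrime] (hρ : 0 < ρ) : i0 C ρ hρ 1 ∉ P := by
  rw [map_one]
  exact fun h => (Ideal.IsPrime.ne_top inferInstance) ((Ideal.eq_top_iff_one _).2 h)

theorem Hn_of_W [P.IsPrime] {hρ : 0 < ρ} {n : ℤ} {z : K} (h : z ∈ W C a x n) : Hn hρ P a x n z :=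
  ⟨1, one_notMem hρ, by rw [OneMemClass.coe_one, one_mul]; exact h⟩

theorem smul_W {n : ℤ} {z : K} (g : d0 C) (h : z ∈ W C a x n) : (g : K) * z ∈ W C a x n := by
  have := (W C a x n).smul_mem g h
  rwa [Subalgebra.smul_def, smul_eq_mul] at this

theorem Hn_add [P.IsPrime] {hρ : 0 < ρ} {n : ℤ} {z z' : K} (h : Hn hρ P a x n z) (h' : Hn hρ P a x n z') :
    Hn hρ P a x n (z + z') := by
  obtain ⟨g, hg, h⟩ := h
  obtain ⟨g', hg', h'⟩ := h'
  refine ⟨g * g', ?_, ?_⟩
  · rw [map_mul]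
    exact fun h => (Ideal.IsPrime.mem_or_mem inferInstance h).elim hg hg'
  · have e : ((g * g' : d0 C) : K) * (z + z') = (g' : K) * (g * z) + (g : K) * (g' * z') := by
      rw [MulMemClass.coe_mul]; ring
    rw [e]
    exact (W C a x n).add_mem (smul_W g' h) (smul_W g h')

theorem Hn_mul [P.IsPrime] {hρ : 0 < ρ} {n n' : ℤ} {z z' : K} (h : Hn hρ P a x n z) (h' : Hn hρ P a x n' z') :
    Hn hρ P a x (n + n') (z * z') := by
  obtain ⟨g, hg, h⟩ := h
  obtain ⟨g', hg', h'⟩ := h'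
  refine ⟨g * g', ?_, ?_⟩
  · rw [map_mul]
    exact fun h => (Ideal.IsPrime.mem_or_mem inferInstance h).elim hg hg'
  · have e : ((g * g' : d0 C) : K) * (z * z') = (g * z) * (g' * z') := by
      rw [MulMemClass.coe_mul]; ring
    rw [e]
    exact W_mul h h'

theorem Hn_absorb [P.IsPrime] {hρ : 0 < ρ} {n : ℤ} {z : K} (g : d0 C) (hg : i0 C ρ hρ g ∉ P)
    (h : Hn hρ P a x n (g * z)) : Hn hρ P a x n z := by
  obtain ⟨g', hg', h⟩ := h
  refine ⟨g' * g, ?_, ?_⟩
  · rw [map_mul]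
    exact fun h => (Ideal.IsPrime.mem_or_mem inferInstance h).elim hg' hg
  · rwa [MulMemClass.coe_mul, mul_assoc]

theorem Hn_zero [P.IsPrime] {hρ : 0 < ρ} {n : ℤ} : Hn hρ P a x n 0 := Hn_of_W (Submodule.zero_mem _)

theorem Hn_sum [P.IsPrime] {hρ : 0 < ρ} {n : ℤ} {ι : Type} (s : Finset ι) (f : ι → K)
    (h : ∀ j ∈ s, Hn hρ P a x n (f j)) : Hn hρ P a x n (∑ j ∈ s, f j) := by
  classical
  induction s using Finset.induction_on with
  | empty => rw [Finset.sum_empty]; exact Hn_zero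
  | insert b s hb ih =>
    rw [Finset.sum_insert hb]
    exact Hn_add (h b (Finset.mem_insert_self _ _)) (ih fun j hj => h j (Finset.mem_insert_of_mem hj))

theorem Hn_hom [P.IsPrime] (hρ : 0 < ρ) (h : LD C ρ P a x) (N : ℕ) :
    ∀ (d : ℤ), d < ρ → ∀ y : K, hm d y ∈ C → d ≤ N → Hn hρ P a x d y := by
  induction N with
  | zero =>
    intro d hd y hy hdN
    apply Hn_of_W
    apply Submodule.subset_span
    refine ⟨0, y, ?_, ?_, ?_⟩
    · rw [wt_zero]; exact hdN
    · rw [wt_zero]; simpa using hy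
    · simp
  | succ N ih =>
    intro d hd y hy hdN
    by_cases h0 : d ≤ N
    · exact ih d hd y hy h0
    · have hd' : d = ((N + 1 : ℕ) : ℤ) := by push_cast; push_cast at hdN; omega
      subst hd'
      obtain ⟨g, hg, hgP, s, hs, e⟩ := h.gen (N + 1) y (by omega) (by exact_mod_cast hd) hy
      have hgd : g ∈ d0 C := low_le C ρ hg
      have hgP' : i0 C ρ hρ ⟨g, hgd⟩ ∉ P := hgP
      apply Hn_absorb ⟨g, hgd⟩ hgP'
      change Hn hρ P a x _ (g * y)
      rw [e]
      apply Hn_sum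
      intro j _
      have hj := (h.deg j).1
      by_cases h1 : ((N + 1 : ℕ) : ℤ) ≤ a j
      · apply Hn_of_W
        apply Submodule.subset_span
        refine ⟨Finsupp.single j 1, s j, ?_, ?_, ?_⟩
        · rw [wt_single]; exact h1
        · rw [wt_single]; exact hs j
        · rw [prod_single]
      · have h2 : Hn hρ P a x (((N + 1 : ℕ) : ℤ) - a j) (s j) :=
          ih _ (by omega) (s j) (hs j) (by push_cast; omega)
        have h3 : Hn hρ P a x (a j) (x j) := by
          apply Hn_of_W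
          apply Submodule.subset_span
          refine ⟨Finsupp.single j 1, 1, ?_, ?_, ?_⟩
          · rw [wt_single]
          · rw [wt_single, sub_self, hm_one]; exact C.one_mem
          · rw [prod_single, one_mul]
        have h4 := Hn_mul h2 h3
        rwa [sub_add_cancel] at h4

theorem Hn_coeff [P.IsPrime] (hρ : 0 < ρ) (h : LD C ρ P a x) (l : LP K) (hl : l ∈ low C ρ) :
    ∀ n : ℤ, Hn hρ P a x n (l.coeff n) := by
  classical
  have hhom : ∀ (d : ℤ) (y : K), d < ρ → hm d y ∈ C → ∀ n, Hn hρ P a x n ((hm d y).coeff n) := by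
    intro d y hd hy n
    rw [coeff_hm]
    split
    · rename_i e
      subst e
      exact Hn_hom hρ h d.toNat d hd y hy (Int.self_le_toNat d)
    · exact Hn_zero
  refine low_ind (p := fun l => ∀ n : ℤ, Hn hρ P a x n (l.coeff n)) ?_ ?_ ?_ ?_ l hl
  · intro d y hd hf
    exact hhom d y hd hf
  · intro r
    exact hhom 0 _ (by exact_mod_cast hρ) (by rw [← algebraMap_LP]; exact C.algebraMap_mem r)
  · intro f g _ _ h1 h2 n
    rw [AddMonoidAlgebra.coeff_add, Finsupp.add_apply]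
    exact Hn_add (h1 n) (h2 n)
  · intro f g _ _ h1 h2 n
    have e : (f * g).coeff n = ∑ d ∈ f.coeff.support, f.coeff d * g.coeff (n - d) := by
      conv_lhs => rw [eq_sum_hm f]
      rw [Finset.sum_mul, AddMonoidAlgebra.coeff_sum, Finsupp.finsetSum_apply]
      exact Finset.sum_congr rfl fun d _ => coeff_hm_mul _ _ _ _
    rw [e]
    apply Hn_sum
    intro d _
    have := Hn_mul (h1 d) (h2 (n - d))
    rwa [add_sub_cancel] at this

end graded

end Pool.Agent.Y44.G
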